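import Pool.Agent.Run7.h199.CV.Sm

/-!
# The conjectures `B^n` for products of smooth varieties with cyclic coverings: separated eigenvalues

Let `κ` be a finite field with `q = c ^ f` elements, and `𝒱` a class of smooth projective varieties over
`κ`, closed under products, with Chow groups `A` with rational coefficients and a Weil cohomology theory
`H` (framework of helper492 and helper484: `TheoryData`, `IsChow`, `IsWeil`). Let `X_i` be varieties in
`𝒱`, of any dimensions `n_i`, which are models of cyclic coverings

  `w ^ N_i = ∏ l_{i,k} (x) ^ a_{i,k}`

of projective spaces, branched along `s_i` hyperplanes `l_{i,k} = 0` over `κ`, with exponents prime to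
`N_i`, where `N_i` divides `q - 1` (`IsModel`: the cohomology is generated by the classes of cycles and a
part `T`, pure of weight `n_i`, without invariants under the covering group, for which the trace formula
holds), and `Z` a variety in `𝒱`. Let `U` be **any** smooth variety over `κ` (not necessarily proper), of
pure dimension. Let `M = ⨁ M^c` with `M^c = H^c(Ū, ℚ_ℓ) ⊗ K` (`Homology`: the étale homology of `U` in the
notation of the library), with the geometric Frobenius `μ`, and `χ` a polynomial with rational
coefficients, `χ(0) ≠ 0`, `χ(μ) = 0`. For `X` in `𝒱` let `R(X) = H(X) ⊗ M`, with the Frobenius `Φ = F_X ⊗ μ`; the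
part of degree `2 n` is `H^{2n}(X̄ × Ū) ⊗ K` by the Künneth formula, and the eigenvalue `1` of `Frob_q` on
`H^{2n}(X̄ × Ū, ℚ_ℓ(n))` is the eigenvalue `q ^ n` of `Φ`. Let `T` be the theory `T^n(X) = CH^n(X × U) ⊗ K`, and
`reg` the cycle class map `c^n` (`IsTheory`, `HasFrobenius`, `IsRegulator`: operation of
correspondences between the varieties in `𝒱` and of the Frobenius; definitions of the starting hand-in
`MP_3af9db_ag.HyperplaneCoverings`, helper876). Let `N` be a common multiple of the `N_i`, and
`weight X j` the mean over the orbit `j, c j, …, c ^ (f - 1) j` of the sum of the fractional parts of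
`j a_k / N_i`.

A complex number `b` is *separated* from the coverings (`IsSeparated`) if for every nonempty finite set
`I` of indices and all `j_i` not divisible by `N_i` (`i ∈ I`) there is a `u` prime to `N` such that one of
the following holds:

* (automorphism) some automorphism of the field of algebraic numbers maps `b` to `b` times a root of
  unity, acts on the roots of unity of order `N` as the power `v`, and
  `∑ weight X_i (v u j_i) - ∑ weight X_i (u j_i) > ∑ (s_i - n_i - 2)`;
* (level) `q ^ λ b / b̄` is an algebraic integer and
  `∑ weight X_i (u j_i) + λ / 2 < ∑ (n_i / 2 + 1)`.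

**Theorem.** (1) Suppose that `1` and the products `b` of the eigenvalues of Frobenius on `H(Z)` and the
complex roots of `χ` are separated (and algebraic with `|b| ^ 2 = q ^ j`: theorem of Deligne). Let `V` be
the product of `Z` and of finitely many of the `X_i` (pairwise different), and `d = dim V - dim Z`.
* For every `n`: `c^n` is surjective onto the invariants of Frobenius for `V × U` if and only if this
  holds for `Z × U` and all `l` with `n - d ≤ l ≤ n`.
* For every `n`: the eigenvalue `1` is semisimple on `H^{2n}(V̄ × Ū, ℚ_ℓ(n))` (Q2) if and only if this holds
  for `Z × U` and all `l` with `n - d ≤ l ≤ n`.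
* If homologically trivial self-correspondences of degree zero of the products `V` are nilpotent, and
  `χ (φ) = 0` on the Chow groups of the `X × U`, then `c^n` is injective for `V × U` if and only if this holds
  for `Z × U` and all `l` with `n - d ≤ l ≤ n`, and **`B^n(V × U)` is equivalent to the assertions
  `B^l(Z × U)` with `n - d ≤ l ≤ n`** (`c^n` is bijective onto the invariants and the eigenvalue `1` is
  semisimple: both questions).

(2) If complex conjugation of the roots of unity of order `N` is induced by an automorphism which fixes
`b` up to a root of unity, then `b` is separated if for all `I`, `j` there is a `u` prime to `N` with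
`∑ weight X_i (u j_i) < ∑ (n_i / 2 + 1)`.

(3) Let the `N_i` be different prime numbers, `c ≡ 1 mod N_i`, and `X_i` the covering
`w ^ N_i = l_1 ⋯ l_{N_i}` of the projective space of dimension `n_i = N_i - 2` (for hyperplanes in general
position the resolutions are Calabi-Yau varieties; `N_i = 3`: an elliptic curve). Then an algebraic
number `b` is separated **if for every `i` some positive power of `b` generates a field which does not
contain the roots of unity of order `N_i`**.

(4) In particular `b` is separated from such `X_i` if the degree of `b` over `ℚ` is less than `N_i - 1` for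
all `i`.

Hence for odd `N_i` the equivalences of (1) hold for **all** smooth projective `Z` and smooth `U`, of
arbitrary dimension and level, for which the products `b` satisfy the condition of (3), for example (if
the characteristic polynomials of the Frobenius on the `H^a(Z)` have rational coefficients) if
`b_a(Z) deg χ < N_i - 1` for all `a` and `i`. In the starting hand-in
`MP_81632f_ag.HyperplaneCoverings` one level `λ` was used for all `b`, or the cyclotomic polynomial of
order `N` had to be irreducible over the field generated by all `b`; this excludes for instance all
powers `Z` of large dimension of an elliptic curve with complex multiplication by `ℚ(√(-N_i))`, which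
are allowed here for `N_i > 3`; moreover surjectivity and semisimplicity were only treated together.
If `U` is a surface as in the question (fibred over a curve, with generic fibre `U_K`), with such
eigenvalues of the Frobenius, then `c^n` is surjective and the eigenvalue `1` is semisimple on
`H^{2n}(V̄ × Ū, ℚ_ℓ(n))` (`Z` a point) for all `n` if and only if the conjecture of Birch and
Swinnerton-Dyer holds for the Albanese variety of `U_K`.

The proof. Let `α_i` be eigenvalues of the Frobenius on `T_i` (`i ∈ I`), and suppose that `b ∏ α_i` is a
power of `q` times a root of unity. Embed the algebraic numbers into an algebraic closure of the field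
of `c`-adic numbers such that `α_i` belongs to the exponent `u j_i`. By the theorem of Stickelberger on
Gauss sums the valuation of `∏ α_i` is at least `∑ (n_i + 1) - ∑ weight X_i (u j_i)`, and by the same
estimate for the complex conjugates the valuation of `∏ τ α_i` is at most
`∑ (s_i - 1) - ∑ weight X_i (v u j_i)`. Since `τ` fixes `b` up to a root of unity, the two products have the
same valuation. So there are no resonances, and the method of the starting hand-in applies.

helper199; built on the library of the starting files (`N876`: helper876, in particular the proof of
(1) from the absence of resonances; estimates of sums over hyperplane arrangements by Gauss sums: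
helper528 and helpers 800, 883, 135, 563, 271, 540, 400, 999, 782, 605, 346; traces on eigenspaces:
helper117; correspondences, nilpotence and the Kunneth formula: helpers 484, 492, 550).
-/

set_option autoImplicit false

open Polynomial CategoryTheory AlgebraicGeometry

namespace Pool.Agent.Results.MP_81632f_ag.SeparatedCoverings

open Pool.Agent.H914 Pool.Agent.H914.VarClass Pool.Agent.H914.VarClass.Obj Pool.Agent.W492.BB
  Pool.Agent.W484.CK Pool.Agent.N876.GB3 Run7.h199.CV.GB3 Run7.h199.CV.Sm

/-- **The conjectures `B^n` for products of smooth varieties with cyclic coverings branched along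
hyperplanes: separated eigenvalues of the Frobenius.** -/
theorem result (c : ℕ) [Fact c.Prime] (κ : Type) [Field κ] [Fintype κ] [CharP κ c] {ι : Type}
    (C : ι → Covering κ) (f : ℕ) :
    -- (1) the theorem for separated eigenvalues
    (∀ N : ℕ, IsSystem C c f N →
      ∀ {𝒱 : VarClass κ} (A : TheoryData.{0, 0, 0} 𝒱 ℚ) [IsChow A] {K : Type} [Field K]
        [IsAlgClosed K] [CharZero K] (H : WeilTheoryData.{0, 0, 0} A K) [IsWeil H] (τ : K →+* ℂ)
        (F : ∀ X : 𝒱.Obj, X ⟶ X) (X : ι → 𝒱.Obj) (Z : 𝒱.Obj) (χ : ℚ[X]),
        IsSeparatedSystem C c f N H τ F X Z χ → ∀ U : Homology K, IsHomology U χ →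
        ∀ T : Theory A, IsTheory T → HasFrobenius T F (Fintype.card κ) →
        ∀ reg : ∀ X, T.M X → U.R H X, IsRegulator T reg → ∀ L : List ι, L.Nodup →
        SmoothConclusions F (Fintype.card κ) χ X Z T reg L) ∧
    -- (2) complex conjugation
    (∀ N : ℕ, IsSystem C c f N → ∀ b : ℂ, FixedWith N (N - 1) b →
      (∀ I : Finset ι, I.Nonempty → ∀ j : ι → ℕ, (∀ i ∈ I, ¬ (C i).N ∣ j i) →
        ∃ u : ℕ, u.Coprime N ∧
          ∑ i ∈ I, (C i).weight c f (u * j i) < ∑ i ∈ I, (((C i).n : ℚ) / 2 + 1)) →
      IsSeparated C c f N b) ∧
    (∀ [Fintype ι], Fintype.card κ = c ^ f → (∀ i, IsSpecial (C i)) → (∀ i, c % (C i).N = 1) →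
      (∀ i i', i ≠ i' → (C i).N ≠ (C i').N) →
      -- (3) numbers which are separated from the special coverings
      (∀ b : ℂ, IsAlgebraic ℚ b →
        (∀ i, ∃ m : ℕ, 0 < m ∧ ∃ ζ : ℂ, ζ ^ (C i).N = 1 ∧
          ζ ∉ IntermediateField.adjoin ℚ {b ^ m}) →
        IsSeparated C c f (∏ i, (C i).N) b) ∧
      -- (4) numbers of small degree
      ∀ b : ℂ, IsAlgebraic ℚ b → (∀ i, (minpoly ℚ b).natDegree < (C i).N - 1) →
        IsSeparated C c f (∏ i, (C i).N) b) := by
  classical
  refine ⟨fun N hC 𝒱 A _ K _ _ _ H _ τ F X Z χ h U hU T hT hF reg hreg L hL =>
    of_conclusions F (Fintype.card κ) χ X Z T reg L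
      (main c κ C f N hC A H τ F X Z χ h U hU T hT hF reg hreg L hL),
    fun N hC b hb h => conj hC hb h,
    fun hf hs hc hne => ⟨fun b hb h => special hf hs hc hne hb h, fun b hb h =>
      special hf hs hc hne hb fun i => ⟨1, one_pos,
        Run7.h199.CV.small_degree' hb (hs i).prime (h i)⟩⟩⟩

end Pool.Agent.Results.MP_81632f_ag.SeparatedCoverings
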